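import Pool.Agent.H906R2.LGc

set_option autoImplicit false

open MeasureTheory Filter Topology Set

/-- Let `p, q ≥ 2`. (1) If some atomless `×p, ×q`-invariant Borel probability measure on `ℝ/ℤ` is
not Lebesgue measure, then Lebesgue measure is a weak-* limit of atomless `×p, ×q`-invariant
probability measures which are ergodic for the joint action and different from Lebesgue measure.
(2) If `ν` is such an ergodic exceptional measure, then so is its image under `x ↦ n x` for every
`n ≥ 1`, and every neighbourhood of Lebesgue measure contains these images for a set of `n` of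
density one. -/
theorem Pool.Agent.Results.MP_96e181_an.LocalToGlobal.result :
    ∀ p q : ℕ, 2 ≤ p → 2 ≤ q →
      ((∃ μ : Measure UnitAddCircle, IsProbabilityMeasure μ ∧ NoAtoms μ ∧
          MeasurePreserving (fun x : UnitAddCircle => p • x) μ μ ∧
          MeasurePreserving (fun x : UnitAddCircle => q • x) μ μ ∧
          μ ≠ (volume : Measure UnitAddCircle)) →
        Pool.Agent.H906R2.LG.lam ∈ closure (Pool.Agent.H906R2.LG.Exc p q)) ∧
      (∀ ν ∈ Pool.Agent.H906R2.LG.Exc p q,
        (∀ n : ℕ, 1 ≤ n → Pool.Agent.H906R2.LG.push n ν ∈ Pool.Agent.H906R2.LG.Exc p q) ∧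
        ∀ U ∈ 𝓝 Pool.Agent.H906R2.LG.lam,
          Tendsto (fun N : ℕ => (Set.ncard {n : ℕ | 1 ≤ n ∧ n ≤ N ∧
            Pool.Agent.H906R2.LG.push n ν ∉ U} : ℝ) / N) atTop (𝓝 0)) := by
  intro p q hp hq
  refine ⟨?_, fun ν hν => ⟨fun n hn => Pool.Agent.H906R2.LG.push_mem p q hp ν hν n hn,
    fun U hU => Pool.Agent.H906R2.LG.push_dens p q ν hν U hU⟩⟩
  rintro ⟨μ, h1, h2, h3, h4, h5⟩
  obtain ⟨ν, hν1, hν2, hν3, hν4⟩ := Pool.Agent.H906R2.LG.exists_erg_atomless p q hp hq ⟨μ, h1⟩
    ⟨h3, h4⟩ h2 (fun h => h5 (congrArg Subtype.val h))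
  exact Pool.Agent.H906R2.LG.closure_of_mem p q hp ν ⟨hν1, hν2, hν3, hν4⟩
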