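import Mathlib
import Pool.Agent.H706R2.NonConc5

set_option autoImplicit false

open MeasureTheory

/-- Quantitative non-concentration at `0` for measures invariant under `x ↦ p x` and `x ↦ q x`. For
`p, q ≥ 2` with `log p / log q` irrational there are `κ < 1` (with `κ = 2 - log 4 / log 3 < 0.7382`
when `p, q` are coprime) and `C` such that for EVERY invariant probability measure `μ` on `R/Z` and
every `t ≥ 1`, the mass outside the ball of radius `exp (-t)` about `0` is at most `C t^κ` times the
mass outside the fixed ball of radius `1 / (1 + max p q)`. -/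
theorem Pool.Agent.Results.MP_96e181_an.NonConcentration.result :
    ∀ p q : ℕ, 2 ≤ p → 2 ≤ q → Irrational (Real.log (p : ℝ) / Real.log (q : ℝ)) →
      ∃ κ : ℝ, κ < 1 ∧ (Nat.Coprime p q → κ = 2 - Real.log 4 / Real.log 3) ∧
        ∃ C : ℝ, ∀ μ : Measure UnitAddCircle, IsProbabilityMeasure μ →
          MeasurePreserving (fun x : UnitAddCircle => p • x) μ μ →
          MeasurePreserving (fun x : UnitAddCircle => q • x) μ μ →
          ∀ t : ℝ, 1 ≤ t →
            μ.real {x : UnitAddCircle | Real.exp (-t) ≤ ‖x‖} ≤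
              C * t ^ κ * μ.real {x : UnitAddCircle | 1 / (1 + max (p : ℝ) (q : ℝ)) ≤ ‖x‖} := by
  intro p q hp hq hirr
  set r : ℝ := 1 / (1 + max (p : ℝ) (q : ℝ)) with hr
  have hmax : 0 < 1 + max (p : ℝ) (q : ℝ) := by positivity
  have hrp : ((p : ℝ) + 1) * r ≤ 1 := by
    rw [hr, mul_one_div, div_le_one hmax]
    have := le_max_left (p : ℝ) (q : ℝ)
    linarith
  have hrq : ((q : ℝ) + 1) * r ≤ 1 := by
    rw [hr, mul_one_div, div_le_one hmax]
    have := le_max_right (p : ℝ) (q : ℝ)
    linarith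
  have hlq : 0 < Real.log q := Real.log_pos (by exact_mod_cast (by omega : 1 < q))
  have hlp : 0 < Real.log p := Real.log_pos (by exact_mod_cast (by omega : 1 < p))
  have hlt : ∀ C : ℕ, 2 ≤ C → 2 - Real.log (C + 1) / Real.log C < 1 := by
    intro C hC
    have hCR : (2 : ℝ) ≤ C := by exact_mod_cast hC
    have h1 : 0 < Real.log (C : ℝ) := Real.log_pos (by linarith)
    have h2 : Real.log (C : ℝ) < Real.log (C + 1) := Real.log_lt_log (by linarith) (by linarith)
    have h3 : 1 < Real.log (C + 1) / Real.log C := by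
      rw [lt_div_iff₀ h1]; linarith
    linarith
  by_cases hco : Nat.Coprime p q
  · have hsc := Pool.Agent.H706R2.scales_coprime hp hq hco hrp hrq
    obtain ⟨D, hD⟩ := Pool.Agent.H706R2.main_of_scales hp hq hrp (by norm_num)
      (by linarith) hsc
    have e : (2 : ℝ) - Real.log (((3 : ℕ) : ℝ) + 1) / Real.log ((3 : ℕ) : ℝ)
        = 2 - Real.log 4 / Real.log 3 := by norm_num
    refine ⟨2 - Real.log 4 / Real.log 3, ?_, fun _ => rfl, D, ?_⟩
    · rw [← e]; exact hlt 3 (by norm_num)
    · intro μ h1 h2 h3 t ht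
      rw [← e]
      exact hD μ h1 h2 h3 t ht
  · obtain ⟨C, c, hC, hc, hsc⟩ := Pool.Agent.H706R2.scales_general hp hq hirr hrp hrq
    obtain ⟨D, hD⟩ := Pool.Agent.H706R2.main_of_scales hp hq hrp (by omega) hc.le hsc
    exact ⟨2 - Real.log (C + 1) / Real.log C, hlt C (by omega), fun h => absurd h hco, D, hD⟩
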