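import Mathlib
import Pool.Agent.H705R2.Quad2

set_option autoImplicit false

open MeasureTheory Filter Topology Set

/-- For multiplicatively independent `p, q ≥ 2` and an atomless Borel probability measure `μ` on
`R/Z` invariant under `x ↦ p x` and `x ↦ q x`: for `μ`-almost every `x` and all `η, ε > 0` there are
infinitely many `n` with `μ (B(x, 2^(-n))) ≤ ε (log n)^(1+η) / n^2`. -/
theorem Pool.Agent.Results.MP_96e181_an.QuadraticComplexity.result :
    ∀ (p q : ℕ), 2 ≤ p → 2 ≤ q → Irrational (Real.log p / Real.log q) →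
      ∀ (μ : Measure (AddCircle (1 : ℝ))), IsProbabilityMeasure μ →
      (∀ x : AddCircle (1 : ℝ), μ {x} = 0) →
      MeasurePreserving (fun x : AddCircle (1 : ℝ) => p • x) μ μ →
      MeasurePreserving (fun x : AddCircle (1 : ℝ) => q • x) μ μ →
      ∀ᵐ x ∂μ, ∀ η : ℝ, 0 < η → ∀ ε : ℝ, 0 < ε → ∃ᶠ n : ℕ in atTop,
        μ (Metric.ball x ((1 / 2 : ℝ) ^ n)) ≤
          ENNReal.ofReal (ε * (Real.log n) ^ (1 + η) / (n : ℝ) ^ 2) := by
  intro p q hp hq hirr μ hprob hatom hμp hμq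
  have : NullSingletonClass μ := ⟨hatom⟩
  have hind := Pool.Agent.H705R2.mulIndep_of_irrational hp hq hirr
  have hall : ∀ᵐ x ∂μ, ∀ m : ℕ, ∀ ε : ℝ, 0 < ε → ∃ᶠ n : ℕ in atTop,
      μ (Metric.ball x ((1 / 2 : ℝ) ^ n)) ≤
        ENNReal.ofReal (ε * (Real.log n) ^ (1 + 1 / ((m : ℝ) + 1)) / (n : ℝ) ^ 2) := by
    rw [ae_all_iff]
    intro m
    exact Pool.Agent.H705R2.quad_dim hp hq hind hμp hμq (by positivity)
  filter_upwards [hall] with x hx
  intro η hη ε hε
  obtain ⟨m, hm⟩ := exists_nat_one_div_lt hη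
  have hev : ∀ᶠ n : ℕ in atTop, 1 ≤ Real.log n := by
    have : Tendsto (fun n : ℕ => Real.log n) atTop atTop :=
      Real.tendsto_log_atTop.comp tendsto_natCast_atTop_atTop
    exact this.eventually_ge_atTop 1
  refine ((hx m ε hε).and_eventually hev).mono ?_
  rintro n ⟨h1, h2⟩
  refine h1.trans (ENNReal.ofReal_le_ofReal ?_)
  gcongr
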