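import Mathlib
import Pool.Agent.H705R2.Furst
import Pool.Agent.H705R2.Quad2

set_option autoImplicit false

open MeasureTheory Filter Topology Set

/-- For multiplicatively independent `p, q ≥ 2`, let `μ` and `ν` be Borel probability measures on
`R/Z`, both invariant under `x ↦ p x` and `x ↦ q x`, with `μ` singular to Lebesgue measure, and let
`t` be a point of infinite order. Then `μ` and the translate of `ν` by `t` are mutually singular. -/
theorem Pool.Agent.Results.MP_96e181_an.TranslateSingular.result :
    ∀ (p q : ℕ), 2 ≤ p → 2 ≤ q → Irrational (Real.log p / Real.log q) →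
      ∀ (μ ν : Measure (AddCircle (1 : ℝ))), IsProbabilityMeasure μ → IsProbabilityMeasure ν →
      MeasurePreserving (fun x : AddCircle (1 : ℝ) => p • x) μ μ →
      MeasurePreserving (fun x : AddCircle (1 : ℝ) => q • x) μ μ →
      MeasurePreserving (fun x : AddCircle (1 : ℝ) => p • x) ν ν →
      MeasurePreserving (fun x : AddCircle (1 : ℝ) => q • x) ν ν →
      Measure.MutuallySingular μ volume →
      ∀ t : AddCircle (1 : ℝ), ¬ IsOfFinAddOrder t →
        Measure.MutuallySingular μ (ν.map (fun x => x + t)) := by
  intro p q hp hq hirr μ ν hμ1 hν1 hμp hμq hνp hνq hμ t ht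
  exact Pool.Agent.H705R2.translation_singular hp hq
    (Pool.Agent.H705R2.mulIndep_of_irrational hp hq hirr) hμp hμq hνp hνq hμ ht
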